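import Pool.Agent.Helper6_LCD.Fin

/-!
# The doubled graph `G[I_2]` is `k²`-choosable if the spheres of `G` grow slowly (MP_e6d343_co)

Question Q1: is `G[I_2]` `k²`-choosable for every bipartite `k`-choosable graph `G`?
-/

namespace Pool.Agent.Results.MP_e6d343_co.SphereGrowth

/-- `G` is `k`-choosable: it has a proper colouring from every assignment of lists of size `k`. -/
def Choosable {V : Type} (G : SimpleGraph V) (k : ℕ) : Prop :=
  ∀ (C : Type) (L : V → Finset C), (∀ v, (L v).card = k) →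
    ∃ f : V → C, (∀ v, f v ∈ L v) ∧ ∀ u v, G.Adj u v → f u ≠ f v

/-- `G[I_2]`: the vertices are the pairs `(v, i)` with `i` one of two labels, and `(u, i)`, `(v, j)`
are adjacent exactly when `u v` is an edge of `G`. -/
def Doubled {V : Type} (G : SimpleGraph V) : SimpleGraph (V × Bool) :=
  SimpleGraph.mk (fun p q => G.Adj p.1 q.1) ⟨fun _ _ h => SimpleGraph.Adj.symm h⟩
    ⟨fun p h => G.loopless.irrefl p.1 h⟩

theorem exp_bound (n : ℕ) : 2 + 2 * (5 : ℝ) ^ (n + 7) ≤ Real.exp 1 ^ (2 * n + 12) := by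
  have he := Real.exp_one_gt_d9
  have he2 : (5 : ℝ) ≤ Real.exp 1 ^ 2 := by
    have : (2.7182818283 : ℝ) ^ 2 ≤ Real.exp 1 ^ 2 := pow_le_pow_left₀ (by norm_num) he.le 2
    norm_num at this ⊢
    linarith
  induction n with
  | zero =>
    have : (2.7182818283 : ℝ) ^ 12 ≤ Real.exp 1 ^ 12 := pow_le_pow_left₀ (by norm_num) he.le 12
    norm_num at this ⊢
    linarith
  | succ n ih =>
    have e1 : 2 * (n + 1) + 12 = (2 * n + 12) + 2 := by ring
    have e2 : (5 : ℝ) ^ (n + 1 + 7) = 5 ^ (n + 7) * 5 := by ring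
    rw [e1, e2, pow_add (Real.exp 1) (2 * n + 12) 2]
    have h0 : (0 : ℝ) < 5 ^ (n + 7) := by positivity
    have h1 := mul_le_mul ih he2 (by norm_num) (by positivity)
    linarith

/-- the explicit case `z = 2 / k` -/
theorem expl (k : ℕ) (hk : 7 ≤ k) : 2 + 2 * (5 : ℝ) ^ k ≤ (1 + 2 / (k : ℝ)) ^ (k ^ 2) := by
  have hk0 : (0 : ℝ) < k := by
    have : 0 < k := by omega
    exact_mod_cast this
  have hx : (0 : ℝ) ≤ 2 / k := by positivity
  have h1 := Real.le_log_one_add_of_nonneg hx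
  have h2 : 2 * (2 / (k : ℝ)) / (2 / k + 2) = 2 / (k + 1) := by
    field_simp
    ring
  rw [h2] at h1
  have hpos : (0 : ℝ) < 1 + 2 / k := by positivity
  have h3 : (1 + 2 / (k : ℝ)) ^ (k ^ 2) = Real.exp ((k ^ 2 : ℕ) * Real.log (1 + 2 / k)) := by
    rw [Real.exp_nat_mul, Real.exp_log hpos]
  rw [h3]
  have h4 : 2 * (k : ℝ) - 2 ≤ (k ^ 2 : ℕ) * Real.log (1 + 2 / k) := by
    have h5 : (2 * (k : ℝ) - 2) + 2 / (k + 1) = (k ^ 2 : ℕ) * (2 / ((k : ℝ) + 1)) := by
      push_cast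
      field_simp
      ring
    have h6 : ((k ^ 2 : ℕ) : ℝ) * (2 / ((k : ℝ) + 1)) ≤ (k ^ 2 : ℕ) * Real.log (1 + 2 / k) :=
      mul_le_mul_of_nonneg_left h1 (Nat.cast_nonneg _)
    have h7 : (0 : ℝ) ≤ 2 / (k + 1) := by positivity
    linarith
  refine le_trans ?_ (Real.exp_le_exp.2 h4)
  obtain ⟨n, rfl⟩ : ∃ n, k = n + 7 := ⟨k - 7, by omega⟩
  have h8 := exp_bound n
  have h9 : Real.exp (2 * ((n + 7 : ℕ) : ℝ) - 2) = Real.exp 1 ^ (2 * n + 12) := by
    rw [← Real.exp_nat_mul]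
    congr 1
    push_cast
    ring
  rw [h9]
  exact h8

open Classical in
/-- **Theorem.**  (1) Let `G` be a finite graph whose edges are covered by a bipartite graph `G₁` and a
graph `G₂` in which every vertex has at most `d` neighbours which precede it in some linear order.  If
`z, θ ∈ [0, 1]` and `2 ∑ z ^ dist_{G₁}(v, x) - 1 + z² < (1 + θ z) ^ (k² - 2 d) (1 - θ) ^ (2 d)` for
every vertex `v` (sum over the component of `v` in `G₁`), then `G[I_2]` is `k²`-choosable.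
(2) In particular (`G₁ = G`, `d = 0`, `θ = 1`, `z = 2 / k`): if `k ≥ 7`, `G` is bipartite and all spheres
satisfy `|S_r(v)| ≤ 5^k (k/4)^r` for `r ≥ 1`, then `G[I_2]` is `k²`-choosable. -/
theorem result :
    (∀ (V : Type) [Fintype V] (G G₁ G₂ : SimpleGraph V) (k d : ℕ) (z θ : ℝ) (ρ : V → ℕ),
      G ≤ G₁ ⊔ G₂ → G₁.IsBipartite → Function.Injective ρ →
      (∀ v, {u | G₂.Adj v u ∧ ρ u < ρ v}.ncard ≤ d) →
      0 ≤ z → z ≤ 1 → 0 ≤ θ → θ ≤ 1 →
      (∀ v, 2 * ∑ x with G₁.Reachable v x, z ^ G₁.dist v x - 1 + z ^ 2 <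
        (1 + θ * z) ^ (k ^ 2 - 2 * d) * (1 - θ) ^ (2 * d)) →
      Choosable (Doubled G) (k ^ 2)) ∧
    (∀ (V : Type) [Fintype V] (G : SimpleGraph V) (k : ℕ), 7 ≤ k → G.IsBipartite →
      (∀ (v : V) (r : ℕ), 1 ≤ r →
        ({x | G.Reachable v x ∧ G.dist v x = r}.ncard : ℝ) ≤ 5 ^ k * (k / 4) ^ r) →
      Choosable (Doubled G) (k ^ 2)) := by
  have main : ∀ (V : Type) [Fintype V] (G G₁ G₂ : SimpleGraph V) (k d : ℕ) (z θ : ℝ) (ρ : V → ℕ),
      G ≤ G₁ ⊔ G₂ → G₁.IsBipartite → Function.Injective ρ →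
      (∀ v, {u | G₂.Adj v u ∧ ρ u < ρ v}.ncard ≤ d) →
      0 ≤ z → z ≤ 1 → 0 ≤ θ → θ ≤ 1 →
      (∀ v, 2 * ∑ x with G₁.Reachable v x, z ^ G₁.dist v x - 1 + z ^ 2 <
        (1 + θ * z) ^ (k ^ 2 - 2 * d) * (1 - θ) ^ (2 * d)) →
      Choosable (Doubled G) (k ^ 2) := by
    intro V _ G G₁ G₂ k d z θ ρ hG hb hρ hd hz hz1 hθ hθ1 hsum C L hL
    exact LCD.H6.doubled G G₁ G₂ hG hb (k ^ 2) d z θ hz hz1 hθ hθ1 ρ hρ hd hsum L hL
  refine ⟨main, ?_⟩
  intro V _ G k hk hb hsph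
  have hk0 : (0 : ℝ) < k := by
    have : 0 < k := by omega
    exact_mod_cast this
  have hk2 : (2 : ℝ) ≤ k := by
    have : 2 ≤ k := by omega
    exact_mod_cast this
  have hz0 : (0 : ℝ) ≤ 2 / k := by positivity
  have hz1 : (2 : ℝ) / k ≤ 1 := (div_le_one hk0).2 hk2
  refine main V G G ⊥ k 0 (2 / k) 1 (fun v => (Fintype.equivFin V v : ℕ)) le_sup_left hb
    (fun a b h => (Fintype.equivFin V).injective (Fin.ext h)) ?_ hz0 hz1 zero_le_one le_rfl ?_
  · intro v
    simp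
  intro v
  simp only [one_mul, mul_zero, Nat.sub_zero, pow_zero, mul_one]
  refine lt_of_lt_of_le ?_ (expl k hk)
  have hzz : (2 / (k : ℝ)) ^ 2 ≤ 1 := pow_le_one₀ hz0 hz1
  set D := Finset.univ.sup (fun x => G.dist v x) with hD
  have e1 : ∑ x with G.Reachable v x, (2 / (k : ℝ)) ^ G.dist v x =
      ∑ r ∈ Finset.range (D + 1), ({x | G.Reachable v x ∧ G.dist v x = r}.ncard : ℝ) *
        (2 / (k : ℝ)) ^ r := by
    rw [← Finset.sum_fiberwise_of_maps_to (s := Finset.univ.filter fun x => G.Reachable v x)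
      (t := Finset.range (D + 1)) (g := fun x => G.dist v x)]
    · refine Finset.sum_congr rfl fun r _ => ?_
      rw [Finset.sum_congr rfl (g := fun _ => (2 / (k : ℝ)) ^ r)]
      · rw [Finset.sum_const, nsmul_eq_mul, Finset.filter_filter]
        congr 2
        have h2 : {x | G.Reachable v x ∧ G.dist v x = r} =
            ((Finset.univ.filter fun x => G.Reachable v x ∧ G.dist v x = r : Finset V) : Set V) := by
          ext u; simp
        rw [h2, Set.ncard_coe_finset]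
      · intro x hx
        rw [(Finset.mem_filter.1 hx).2]
    · intro x _
      rw [Finset.mem_range]
      exact Nat.lt_succ_of_le (Finset.le_sup (f := fun x => G.dist v x) (Finset.mem_univ x))
  rw [e1, Finset.sum_range_succ']
  have e2 : {x | G.Reachable v x ∧ G.dist v x = 0} = {v} := by
    ext x
    simp only [Set.mem_ofPred_eq, Set.mem_singleton_iff]
    constructor
    · rintro ⟨h1, h2⟩
      exact ((h1.dist_eq_zero_iff).1 h2).symm
    · rintro rfl
      exact ⟨SimpleGraph.Reachable.refl _, SimpleGraph.dist_self⟩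
  rw [e2, Set.ncard_singleton, pow_zero, Nat.cast_one, one_mul]
  have e3 : ∑ r ∈ Finset.range D, ({x | G.Reachable v x ∧ G.dist v x = r + 1}.ncard : ℝ) *
      (2 / (k : ℝ)) ^ (r + 1) ≤ ∑ r ∈ Finset.range D, 5 ^ k * (1 / 2 : ℝ) ^ (r + 1) := by
    refine Finset.sum_le_sum fun r _ => ?_
    have h1 := hsph v (r + 1) (by omega)
    refine (mul_le_mul_of_nonneg_right h1 (by positivity)).trans (le_of_eq ?_)
    rw [mul_assoc, ← mul_pow]
    congr 2
    field_simp
    norm_num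
  have e4 : ∀ n : ℕ, ∑ r ∈ Finset.range n, (5 : ℝ) ^ k * (1 / 2 : ℝ) ^ (r + 1) =
      5 ^ k * (1 - (1 / 2) ^ n) := by
    intro n
    induction n with
    | zero => simp
    | succ n ih => rw [Finset.sum_range_succ, ih]; ring
  rw [e4] at e3
  have h5 : (0 : ℝ) < 5 ^ k * (1 / 2) ^ D := by positivity
  linarith

end Pool.Agent.Results.MP_e6d343_co.SphereGrowth
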